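import Pool.Agent.H1.WG.Main
import Pool.Agent.H95.RE.Fin

/-!
# Refutations of the binary clique formulas with OR gates over polynomials over a finite field

Let `F` be a finite field. For all `d`, `s`, `f` there is `C` such that for `2 ≤ l ≤ k`, `C k ≤ l b`, `k ^ C ≤ 2 ^ b`
there is a graph with `k` parts of `2 ^ b` vertices without `l`-clique such that all refutations of its binary clique
formula with `N` gates have `(2 ^ b) ^ l ≤ N ^ C`; there is one with `N ≤ 2 (2 ^ b) ^ l`.
-/

set_option autoImplicit false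
open scoped Classical

namespace Pool.Agent.Results.MP_ba3460_lc.GateClique

open CliqueGates

theorem result (F : Type) [Field F] [Fintype F] (d s f : ℕ) :
    ∃ C : ℕ, 1 ≤ C ∧ ∀ l k b : ℕ, 2 ≤ l → l ≤ k → C * k ≤ l * b → k ^ C ≤ 2 ^ b →
      ∃ G : SimpleGraph (Vertex k b), (∀ v w, G.Adj v w → v.1 ≠ w.1) ∧ G.CliqueFree l ∧
        (∀ t N, C * t ≤ l * b → Refutes F d s t f G N → (2 ^ b) ^ l ≤ N ^ C) ∧
        ∃ N, N ≤ 2 * (2 ^ b) ^ l ∧ Refutes F 1 1 0 2 G N := by
  obtain ⟨c, hc, hdc, hB⟩ := H1WG.base_of (F := F) d s f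
    (PolyGates.main F (d + 3) (2 ^ (d + 3 + 3)) d s f (by omega) (by omega))
  exact H1WG.main F hc hdc hB

end Pool.Agent.Results.MP_ba3460_lc.GateClique
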