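import Pool.Agent.H49.RO.Fin

/-!
# The k-clique formula of a random graph is hard for general resolution and for cutting planes

For all `c, K ≥ 1` there is a constant `C` such that for all `k ≥ C`, all `N` with `k ≤ K log₂ N` and all `p` with
`N ^ (-c / k) ≤ p ≤ 1` the following holds for the random graph `G` on `N` vertices in which every pair is an edge with
probability `p`.  With probability at least `1 - 1 / N` every resolution refutation and every semantic cutting planes
refutation of the `k`-clique formula of `G` has more than `N ^ (k / C)` lines.  If `p ≤ N ^ (-(2 + 5 / k) / k)` then `G`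
has a `k`-clique with probability at most `1 / N`.  For example, for `p = 1 / 2` and `k ≈ 3 log₂ N` the refutations have
`N ^ Ω(log N)` lines.

The definitions are in `Pool/Agent/H35/CL/Stmt.lean` (`ResolutionOf`, `CuttingPlanesOf`, `KClique`) and
`Pool/Agent/H49/RG/Stmt.lean` (`GroupRefutation`).
-/

namespace Pool.Agent.Results.MP_ba3460_lc.RandomClique

open Pool.Agent.H35.CL Pool.Agent.H49.RG

theorem result (c K : ℕ) (hc : 1 ≤ c) (hK : 1 ≤ K) :
    ∃ C : ℕ, 1 ≤ C ∧ ∀ (k N : ℕ) (p : unitInterval), C ≤ k → 2 ^ k ≤ N ^ K → (N : ℝ) ^ (-(c : ℝ) / k) ≤ p →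
      (SimpleGraph.binomialRandom (Fin N) p).real {G | ∃ S : ℕ, S ^ C ≤ N ^ k ∧
        ((∃ D, ResolutionOf (KClique G k) S D) ∨ ∃ q, C * q ≤ k ∧
          ((∃ a b, CuttingPlanesOf (KClique G k) q S a b) ∨
            ∃ f, GroupRefutation (k := k) G C q S f))} ≤ 1 / N ∧
      ((p : ℝ) ≤ (N : ℝ) ^ (-(2 + 5 / (k : ℝ)) / k) →
        (SimpleGraph.binomialRandom (Fin N) p).real {G | ¬ G.CliqueFree k} ≤ 1 / N) :=
  Pool.Agent.H49.RO.main c K hc hK

end Pool.Agent.Results.MP_ba3460_lc.RandomClique
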