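import Pool.Agent.H9.SD.Res

/-!
# SDP relaxations of `k`-clique

The definitions `LocalObjective`, `Certifies2` and `edgeCount` are in `Pool/Agent/H9/SD/Stm2.lean`.
-/

set_option autoImplicit false

open Finset

namespace Pool.Agent.Results.MP_ba3460_lc.SdpRelaxations

open Pool.Agent.H9.SD

open Classical in
theorem result (s k : ℕ) (hs : 1 ≤ s) (hk : 16 * s + 4 ≤ k) :
    (∃ (n : ℕ) (H : SimpleGraph (Fin n)),
      (∀ (N : ℕ) (ψ : Fin N → Fin n), (H.comap ψ).CliqueFree (16 * s + 4)) ∧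
      ∀ w : SimpleGraph (Fin k) → ℝ, LocalObjective (2 * s) w → ∀ ρ : ℝ, 0 < ρ → ∃ c C : ℝ, 0 < c ∧ 0 < C ∧
        ∀ N R : ℕ, k ≤ N → ∀ B : (Fin k ↪ Fin N) → Matrix (Fin R) (Fin R) ℝ, (∀ F, (B F).PosSemidef) →
          C / N * (n : ℝ) ^ N ≤
            ((univ : Finset (Fin N → Fin n)).filter (fun ψ => Certifies2 w B (H.comap ψ) ρ)).card →
          c * ((N : ℝ) / (1 + Real.log N)) ^ (s + 1) < R + 1) ∧
    (LocalObjective 2 (edgeCount (k := k)) ∧ edgeCount (⊤ : SimpleGraph (Fin k)) = (k : ℝ) * (k - 1) ∧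
      ∀ N : ℕ, ∃ B : (Fin k ↪ Fin N) → Matrix (Fin (N.choose (16 * s + 4))) (Fin (N.choose (16 * s + 4))) ℝ,
        (∀ F, (B F).PosSemidef) ∧
        ∀ G : SimpleGraph (Fin N), G.CliqueFree (16 * s + 4) → ∀ ρ : ℝ,
          ρ ≤ 2 * ((k : ℝ) * (k - 1)) / (((16 * s + 4 : ℕ) : ℝ) * ((16 * s + 4 : ℕ) - 1)) →
          Certifies2 edgeCount B G ρ) :=
  Res_main s k hs hk

end Pool.Agent.Results.MP_ba3460_lc.SdpRelaxations
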