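import Pool.Agent.H9.SI.Fnj
import Pool.Agent.H9.SI.Upq

/-!
# Sum-of-squares refutations of the `k`-clique formula of random graphs

The definitions `IsPartialClique`, `Sees` and `SosRefutation` are in `Pool/Agent/H9/SI/Stm.lean`.
-/

set_option autoImplicit false

open Finset

namespace Pool.Agent.Results.MP_ba3460_lc.SosRandomClique

open Pool.Agent.H9.SI

theorem result (e s k N : ℕ) (p : unitInterval) (he : 1 ≤ e) (hs : 1 ≤ s) (hk : 4 * s ≤ k)
    (hA : (e * k.choose (2 * s)) ^ (100 * e) ≤ N) (hp : 1 ≤ N * (p : ℝ) ^ (200 * e * s)) :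
    (SimpleGraph.binomialRandom (Fin N) p).real {G |
      ∃ (R : ℕ) (P W : Fin R → Finset (Fin N)) (g : Fin R → (Fin k → Option (Fin N)) → ℝ),
        SosRefutation G g ∧ (∀ t, Sees (P t) (W t) (g t)) ∧
        (∀ t, (P t).card * e < s → (W t).card ^ e ≤ N ^ (e - 1)) ∧
        (univ.filter (fun t => s ≤ (P t ∪ W t).card)).card ^ (4 * e) ≤ N ^ s} ≤ 1 / N ∧
    (∀ K : ℕ, (N : ℝ) ^ (K + 1) * (p : ℝ) ^ K.choose 2 ≤ 1 →
      (SimpleGraph.binomialRandom (Fin N) p).real {G | ¬ G.CliqueFree K} ≤ 1 / N) ∧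
    ∀ G : SimpleGraph (Fin N), G.CliqueFree k → ∀ B : ℕ, 1 ≤ B →
      ∃ (R : ℕ) (W : Fin R → Finset (Fin N)) (g : Fin R → (Fin k → Option (Fin N)) → ℝ), SosRefutation G g ∧
        (∀ t, Sees ∅ (W t) (g t) ∧ (W t).card ≤ k * (N / B + 1)) ∧ R ≤ (B + 1) ^ k := by
  have hN : 1 ≤ N := by
    refine le_trans (Nat.one_le_iff_ne_zero.2 ?_) hA
    have : 0 < k.choose (2 * s) := Nat.choose_pos (by omega)
    positivity
  refine ⟨?_, fun K hK => Pool.Agent.H9.SQ.FinS_clique K N p hN hK, fun G hG B hB => Upq_main G hG B hB⟩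
  exact Fnj_main e (2 * s) s k N p he hs le_rfl (by omega) hA
    (by rw [show 100 * e * (2 * s) = 200 * e * s by ring]; exact hp)

end Pool.Agent.Results.MP_ba3460_lc.SosRandomClique
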